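import Mathlib

set_option autoImplicit false

open Matrix

namespace Pool.Agent.Results.MP_62e324_al.OreRankCondition

universe u v

/-- The right strong rank condition: for no `n ≥ 1` is there an injective homomorphism of right
`A`-modules `A^(n+1) → A^n`. -/
def RSRC (A : Type u) [Ring A] : Prop :=
  ∀ n : ℕ, 1 ≤ n → ¬ ∃ f : (Fin (n + 1) → A) →ₗ[Aᵐᵒᵖ] (Fin n → A), Function.Injective f

/-- `S` is the Ore extension `R[x; σ, δ]`: every element of `S` is `∑ r_i x^i` with unique
`r_i ∈ R`, and `x r = σ(r) x + δ(r)`. -/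
structure IsOreExtension {R : Type u} {S : Type v} [Ring R] [Ring S] (σ : R →+* R) (δ : R →+ R)
    (ι : R →+* S) (x : S) : Prop where
  rel : ∀ r : R, x * ι r = ι (σ r) * x + ι (δ r)
  basis : Function.Bijective fun p : ℕ →₀ R => p.sum fun i r => ι r * x ^ i

section
variable {A : Type u} [Ring A]

theorem exists_matrix {n m : ℕ} (f : (Fin m → A) →ₗ[Aᵐᵒᵖ] (Fin n → A)) :
    ∃ M : Matrix (Fin n) (Fin m) A, ∀ v, f v = M *ᵥ v := by
  refine ⟨fun i j => f (Pi.single j 1) i, fun v => ?_⟩
  have hv : v = ∑ j, MulOpposite.op (v j) • (Pi.single j (1 : A) : Fin m → A) := by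
    funext k
    rw [Finset.sum_apply, Finset.sum_eq_single k]
    · simp
    · intro b _ hb
      simp [hb.symm]
    · intro h; exact absurd (Finset.mem_univ _) h
  conv_lhs => rw [hv]
  rw [map_sum]
  funext i
  rw [Finset.sum_apply]
  simp only [map_smul, Pi.smul_apply, MulOpposite.smul_eq_mul_unop, MulOpposite.unop_op]
  rfl

theorem RSRC.nontrivial (h : RSRC A) : Nontrivial A := by
  by_contra hn
  rw [not_nontrivial_iff_subsingleton] at hn
  refine h 1 le_rfl ⟨0, ?_⟩
  intro a b _
  exact Subsingleton.elim _ _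

/-- A matrix with more columns than rows has a nonzero kernel vector. -/
theorem RSRC.exists_kernel (h : RSRC A) {I J : Type} [Fintype I] [Fintype J]
    (hc : Fintype.card I < Fintype.card J) (M : Matrix I J A) :
    ∃ w : J → A, w ≠ 0 ∧ M *ᵥ w = 0 := by
  classical
  have hnt := h.nontrivial
  rcases Nat.eq_zero_or_pos (Fintype.card I) with h0 | hpos
  · rw [Fintype.card_eq_zero_iff] at h0
    have : Nonempty J := by
      rw [← Fintype.card_pos_iff]; omega
    obtain ⟨j⟩ := this
    refine ⟨Pi.single j 1, ?_, ?_⟩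
    · intro h
      have := congrFun h j
      simp at this
    · funext i; exact h0.elim i
  · set n := Fintype.card I with hn
    let eI : I ≃ Fin n := Fintype.equivFin I
    have hle : n + 1 ≤ Fintype.card J := hc
    let eJ : Fin (n + 1) ↪ J := (Fin.castLEEmb hle).trans (Fintype.equivFin J).symm.toEmbedding
    let f : (Fin (n + 1) → A) →ₗ[Aᵐᵒᵖ] (Fin n → A) :=
      { toFun := fun v i => ∑ j, M (eI.symm i) (eJ j) * v j
        map_add' := by
          intro v w
          funext i
          simp [mul_add, Finset.sum_add_distrib]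
        map_smul' := by
          intro a v
          funext i
          simp [Finset.sum_mul, mul_assoc] }
    have hf := h n hpos
    have hninj : ¬ Function.Injective f := fun hi => hf ⟨f, hi⟩
    rw [Function.Injective] at hninj
    push Not at hninj
    obtain ⟨a, b, hab, hne⟩ := hninj
    have hker : f (a - b) = 0 := by rw [map_sub, hab, sub_self]
    have hne' : a - b ≠ 0 := sub_ne_zero.mpr hne
    refine ⟨fun j => if hj : ∃ k, eJ k = j then (a - b) hj.choose else 0, ?_, ?_⟩
    · intro h0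
      apply hne'
      funext k
      have := congrFun h0 (eJ k)
      have hex : ∃ k', eJ k' = eJ k := ⟨k, rfl⟩
      simp only [dif_pos hex] at this
      have hk : hex.choose = k := eJ.injective hex.choose_spec
      rw [hk] at this
      exact this
    · funext i
      have := congrFun hker (eI i)
      simp only [f, LinearMap.coe_mk, AddHom.coe_mk, Equiv.symm_apply_apply] at this
      rw [Matrix.mulVec, dotProduct, Pi.zero_apply]
      rw [Pi.zero_apply] at this
      refine Eq.trans ?_ this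
      symm
      apply Finset.sum_bij_ne_zero (fun k _ _ => eJ k)
      · intro _ _ _; exact Finset.mem_univ _
      · intro k _ _ k' _ _ hkk; exact eJ.injective hkk
      · intro j _ hj
        by_cases hex : ∃ k, eJ k = j
        · obtain ⟨k, rfl⟩ := hex
          refine ⟨k, Finset.mem_univ _, ?_, rfl⟩
          have hex : ∃ k', eJ k' = eJ k := ⟨k, rfl⟩
          have hk : hex.choose = k := eJ.injective hex.choose_spec
          simp only [dif_pos hex, hk] at hj
          exact hj
        · rw [dif_neg hex, mul_zero] at hj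
          exact absurd rfl hj
      · intro k _ _
        have hex : ∃ k', eJ k' = eJ k := ⟨k, rfl⟩
        have hk : hex.choose = k := eJ.injective hex.choose_spec
        simp only [dif_pos hex, hk]

end

section
variable {R : Type u} {S : Type v} [Ring R] [Ring S] {σ : R →+* R} {δ : R →+ R} {ι : R →+* S} {x : S}

/-- elements `∑_{i ≤ d} x^i r_i` -/
def Fil (ι : R →+* S) (x : S) (d : ℕ) : AddSubgroup S where
  carrier := {s | ∃ c : ℕ → R, s = ∑ i ∈ Finset.range (d + 1), x ^ i * ι (c i)}
  zero_mem' := ⟨0, by simp⟩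
  add_mem' := by
    rintro _ _ ⟨c, rfl⟩ ⟨c', rfl⟩
    exact ⟨c + c', by simp [mul_add, Finset.sum_add_distrib]⟩
  neg_mem' := by
    rintro _ ⟨c, rfl⟩
    exact ⟨-c, by simp⟩

theorem mem_Fil {d : ℕ} {s : S} :
    s ∈ Fil ι x d ↔ ∃ c : ℕ → R, s = ∑ i ∈ Finset.range (d + 1), x ^ i * ι (c i) := Iff.rfl

theorem Fil_mono {d e : ℕ} (h : d ≤ e) : Fil ι x d ≤ Fil ι x e := by
  rintro _ ⟨c, rfl⟩
  refine AddSubgroup.sum_mem _ fun i hi => ?_
  rw [Finset.mem_range] at hi
  refine ⟨fun k => if k = i then c i else 0, ?_⟩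
  rw [Finset.sum_eq_single i]
  · simp
  · intro b _ hb; simp [hb]
  · intro hn; exact absurd (Finset.mem_range.mpr (by omega)) hn

theorem pow_mul_mem (i : ℕ) (r : R) {d : ℕ} (h : i ≤ d) : x ^ i * ι r ∈ Fil ι x d := by
  refine ⟨fun k => if k = i then r else 0, ?_⟩
  rw [Finset.sum_eq_single i]
  · simp
  · intro b _ hb; simp [hb]
  · intro hn; exact absurd (Finset.mem_range.mpr (by omega)) hn

theorem mul_const_mem {d : ℕ} {y : S} (hy : y ∈ Fil ι x d) (r : R) : y * ι r ∈ Fil ι x d := by
  obtain ⟨c, rfl⟩ := hy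
  exact ⟨fun i => c i * r, by simp [Finset.sum_mul, mul_assoc]⟩

variable (hO : IsOreExtension σ δ ι x) (hσ : Function.Surjective σ)
include hO hσ

theorem mul_x_mem {d : ℕ} {y : S} (hy : y ∈ Fil ι x d) : y * x ∈ Fil ι x (d + 1) := by
  obtain ⟨c, rfl⟩ := hy
  rw [Finset.sum_mul]
  refine AddSubgroup.sum_mem _ fun i hi => ?_
  rw [Finset.mem_range] at hi
  obtain ⟨r, hr⟩ := hσ (c i)
  have e : ι (c i) * x = x * ι r - ι (δ r) := by
    rw [hO.rel r, hr]; abel
  rw [mul_assoc, e, mul_sub, ← mul_assoc, ← pow_succ]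
  exact AddSubgroup.sub_mem _ (pow_mul_mem _ _ (by omega)) (pow_mul_mem _ _ (by omega))

theorem mul_pow_mem {d : ℕ} {y : S} (hy : y ∈ Fil ι x d) (k : ℕ) :
    y * x ^ k ∈ Fil ι x (d + k) := by
  induction k with
  | zero => simpa using hy
  | succ k ih =>
    rw [pow_succ, ← mul_assoc]
    exact mul_x_mem hO hσ ih

theorem mul_mem' {d e : ℕ} {y z : S} (hy : y ∈ Fil ι x d) (hz : z ∈ Fil ι x e) :
    y * z ∈ Fil ι x (d + e) := by
  obtain ⟨c, rfl⟩ := hz
  rw [Finset.mul_sum]
  refine AddSubgroup.sum_mem _ fun k hk => ?_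
  rw [Finset.mem_range] at hk
  rw [← mul_assoc]
  exact Fil_mono (by omega) (mul_const_mem (mul_pow_mem hO hσ hy k) (c k))

theorem exists_mem (s : S) : ∃ d, s ∈ Fil ι x d := by
  obtain ⟨p, hp⟩ := hO.basis.2 s
  refine ⟨p.support.sup id, ?_⟩
  rw [← hp]
  refine AddSubgroup.sum_mem _ fun i hi => ?_
  have h0 : ι (p i) ∈ Fil ι x 0 := ⟨fun _ => p i, by simp⟩
  have h1 := mul_pow_mem hO hσ h0 i
  rw [zero_add] at h1
  exact Fil_mono (Finset.le_sup (f := id) hi) h1

/-- A uniform bound for the entries of a finite matrix. -/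
theorem exists_bound {I J : Type} [Fintype I] [Fintype J] (M : Matrix I J S) :
    ∃ d, ∀ i j, M i j ∈ Fil ι x d := by
  choose d hd using fun p : I × J => exists_mem hO hσ (M p.1 p.2)
  exact ⟨Finset.univ.sup d, fun i j => Fil_mono (Finset.le_sup (f := d) (Finset.mem_univ (i, j)))
    (hd (i, j))⟩

theorem tensor_power {n d : ℕ} (M : Matrix (Fin n) (Fin (n + 1)) S)
    (hM : ∀ v, M *ᵥ v = 0 → v = 0) (hd : ∀ i j, M i j ∈ Fil ι x d) (k : ℕ) :
    ∃ (I J : Type) (_ : Fintype I) (_ : Fintype J) (N : Matrix I J S),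
      Fintype.card I = n ^ k ∧ Fintype.card J = (n + 1) ^ k ∧
      (∀ v, N *ᵥ v = 0 → v = 0) ∧ ∀ i j, N i j ∈ Fil ι x (k * d) := by
  induction k with
  | zero =>
    refine ⟨Unit, Unit, inferInstance, inferInstance, fun _ _ => 1, by simp, by simp, ?_, ?_⟩
    · intro v hv
      funext u
      have := congrFun hv u
      simpa [Matrix.mulVec, dotProduct] using this
    · intro _ _
      have := pow_mul_mem (ι := ι) (x := x) 0 1 (Nat.zero_le (0 * d))
      simpa using this
  | succ k ih =>
    obtain ⟨I, J, _, _, N, hI, hJ, hN, hNd⟩ := ih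
    refine ⟨I × Fin n, J × Fin (n + 1), inferInstance, inferInstance,
      fun a b => N a.1 b.1 * M a.2 b.2, ?_, ?_, ?_, ?_⟩
    · rw [Fintype.card_prod, hI, Fintype.card_fin, pow_succ]
    · rw [Fintype.card_prod, hJ, Fintype.card_fin, pow_succ]
    · intro v hv
      have h1 : ∀ i, (fun b => ∑ l, M i l * v (b, l)) = 0 := by
        intro i
        apply hN
        funext a
        have := congrFun hv (a, i)
        rw [Matrix.mulVec, dotProduct] at this ⊢
        rw [Fintype.sum_prod_type] at this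
        simpa [Finset.mul_sum, mul_assoc] using this
      funext ⟨b, l⟩
      have h2 : (fun l => v (b, l)) = 0 := by
        apply hM
        funext i
        have := congrFun (h1 i) b
        simpa [Matrix.mulVec, dotProduct] using this
      exact congrFun h2 l
    · intro a b
      have := mul_mem' hO hσ (hNd a.1 b.1) (hd a.2 b.2)
      rw [add_mul, one_mul]
      exact this

end

theorem growth (n d : ℕ) (hn : 1 ≤ n) : ∃ k : ℕ, n ^ k * (k * d + 1) < (n + 1) ^ k := by
  have hr : (1 : ℝ) < ((n : ℝ) + 1) / n := by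
    rw [lt_div_iff₀ (by exact_mod_cast hn)]; linarith
  have h1 := (tendsto_pow_const_div_const_pow_of_one_lt 1 hr).const_mul (d : ℝ)
  have h0 := tendsto_pow_const_div_const_pow_of_one_lt 0 hr
  have h := h1.add h0
  simp only [mul_zero, add_zero, pow_one, pow_zero] at h
  obtain ⟨k, hk⟩ := (h.eventually (gt_mem_nhds (zero_lt_one))).exists
  refine ⟨k, ?_⟩
  have hnr : (0 : ℝ) < n := by exact_mod_cast hn
  have hpos : (0 : ℝ) < (((n : ℝ) + 1) / n) ^ k := by positivity
  have h2 : (d : ℝ) * k + 1 < (((n : ℝ) + 1) / n) ^ k := by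
    have : (d : ℝ) * ((k : ℝ) / (((n : ℝ) + 1) / n) ^ k) + 1 / (((n : ℝ) + 1) / n) ^ k
        = ((d : ℝ) * k + 1) / (((n : ℝ) + 1) / n) ^ k := by ring
    rw [this, div_lt_one hpos] at hk
    exact hk
  rw [div_pow, lt_div_iff₀ (by positivity)] at h2
  have h3 : ((n ^ k * (k * d + 1) : ℕ) : ℝ) < (((n + 1) ^ k : ℕ) : ℝ) := by
    push_cast
    linarith
  exact_mod_cast h3

/-- **Theorem.** If `R` satisfies the right strong rank condition, `σ` is a surjective endomorphism
of `R` and `δ` is a `σ`-derivation, then the Ore extension `S = R[x; σ, δ]` satisfies the right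
strong rank condition. -/
theorem result {R : Type u} {S : Type v} [Ring R] [Ring S] (σ : R →+* R)
    (hσ : Function.Surjective σ) (δ : R →+ R) (_hδ : ∀ r s : R, δ (r * s) = δ r * s + σ r * δ s)
    (ι : R →+* S) (x : S) (hO : IsOreExtension σ δ ι x) (hR : RSRC R) : RSRC S := by
  classical
  rintro n hn ⟨f, hf⟩
  obtain ⟨M, hM⟩ := exists_matrix f
  have hM0 : ∀ v, M *ᵥ v = 0 → v = 0 := by
    intro v hv
    apply hf
    rw [hM, hv, map_zero]
  obtain ⟨d, hd⟩ := exists_bound hO hσ M
  obtain ⟨k, hk⟩ := growth n d hn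
  obtain ⟨I, J, _, _, N, hI, hJ, hN, hNd⟩ := tensor_power hO hσ M hM0 hd k
  choose c hc using hNd
  obtain ⟨w, hw0, hw⟩ := hR.exists_kernel (I := I × Fin (k * d + 1)) (J := J)
    (by rw [Fintype.card_prod, hI, hJ, Fintype.card_fin]; exact hk)
    (fun a b => c a.1 b a.2)
  apply hw0
  have hz : (fun b => ι (w b)) = 0 := by
    apply hN
    funext a
    rw [Matrix.mulVec, dotProduct]
    have h1 : ∀ b, N a b * ι (w b)
        = ∑ i ∈ Finset.range (k * d + 1), x ^ i * ι (c a b i * w b) := by
      intro b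
      rw [hc a b, Finset.sum_mul]
      simp [mul_assoc]
    simp only [h1]
    rw [Finset.sum_comm]
    apply Finset.sum_eq_zero
    intro i hi
    rw [← Finset.mul_sum, ← map_sum]
    have := congrFun hw (a, ⟨i, Finset.mem_range.mp hi⟩)
    rw [Matrix.mulVec, dotProduct] at this
    simp only [Pi.zero_apply] at this
    rw [this]; simp
  funext b
  have hb := congrFun hz b
  simp only [Pi.zero_apply] at hb ⊢
  have hinj := hO.basis.1 (a₁ := Finsupp.single 0 (w b)) (a₂ := 0) (by simp [hb])
  simpa using hinj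

end Pool.Agent.Results.MP_62e324_al.OreRankCondition
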